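import Pool.Agent.helper31.GPR.Spec

/-!
# Row gpr:FOU: four points
-/

set_option autoImplicit false

namespace Pool.Agent.GPR

open Pool.Agent.helper25.QST

theorem FOU : FOU_stmt := by
  intro V _ _ S J hL x hx y hy z hz hs w hw
  set W := Submodule.span (ZMod 2) {x, y, z} ⊔ Submodule.span (ZMod 2) {w} with hW
  have hwW : w ∈ W := Submodule.mem_sup_right (Submodule.mem_span_singleton_self w)
  have hxW : x ∈ W := Submodule.mem_sup_left (Submodule.subset_span (by simp))
  have hyW : y ∈ W := Submodule.mem_sup_left (Submodule.subset_span (by simp))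
  have hzW : z ∈ W := Submodule.mem_sup_left (Submodule.subset_span (by simp))
  have key : ∀ p ∈ S, p ∈ W → J p w + J w p ∈ W := by
    intro p hp hpW
    have h1 := hL.sym p hp w hw
    have h2 : Submodule.span (ZMod 2) {p, w} ≤ W := by
      rw [Submodule.span_le]
      intro v hv
      rw [Set.mem_insert_iff, Set.mem_singleton_iff] at hv
      rcases hv with rfl | rfl
      · exact hpW
      · exact hwW
    exact h2 h1
  have h1 := key x hx hxW
  have h2 := key y hy hyW
  have h3 := key z hz hzW
  have h4 := key (x + y + z) hs (W.add_mem (W.add_mem hxW hyW) hzW)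
  have h5 := W.add_mem (W.add_mem (W.add_mem h1 h2) h3) h4
  have e : J x w + J w x + (J y w + J w y) + (J z w + J w z) + (J (x + y + z) w + J w (x + y + z)) =
      (J x + J y + J z + J (x + y + z)) w := by
    have e1 : J w (x + y + z) = J w x + J w y + J w z := by
      rw [map_add, map_add]
    have e2 : ∀ v : V, v + v = 0 := fun v => ZModModule.add_self v
    simp only [LinearMap.add_apply]
    rw [e1]
    have e3 : J x w + J w x + (J y w + J w y) + (J z w + J w z) + (J (x + y + z) w + (J w x + J w y + J w z)) =
        (J x w + J y w + J z w + J (x + y + z) w) + ((J w x + J w x) + (J w y + J w y) + (J w z + J w z)) := by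
      abel
    rw [e3, e2 (J w x), e2 (J w y), e2 (J w z), add_zero, add_zero, add_zero]
  rw [← e]
  exact h5

end Pool.Agent.GPR
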